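import Pool.Agent.Helper93.Fin.Work
import Pool.Agent.Helper93.Fin.Spaces

/-!
# Module G2s: the structure of the Lie algebra of `G₂` (symmetric pair `(G₂, SO(4))`)
-/

noncomputable section

namespace Pool.Agent.Helper93.Fin

open scoped ContDiff Quaternion Matrix

namespace G2

/-- `P₃ = P₂ i - P₁ j` solves `P₁ i + P₂ j + P₃ k = 0` -/
def pr (A B : ℍ[ℝ]) : Fin 3 → ℍ[ℝ] := ![A, B, B * e 0 - A * e 1]

/-- `(a, b) ↦ (0, p b)` -/
def hel (q : ℍ[ℝ]) : End := LinearMap.toContinuousLinearMap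
  { toFun := fun x : Oct => ((0 : ℍ[ℝ]), q * x.2)
    map_add' := by intro x y; simp [mul_add]
    map_smul' := by intro c x; simp }

/-- `(a, b) ↦ ([q, a], - b q)` -/
def kel (q : ℍ[ℝ]) : End := LinearMap.toContinuousLinearMap
  { toFun := fun x : Oct => (q * x.1 - x.1 * q, -(x.2 * q))
    map_add' := by
      intro x y
      simp only [Prod.fst_add, Prod.snd_add, mul_add, add_mul, Prod.mk_add_mk]
      refine Prod.ext ?_ ?_ <;> simp only <;> abel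
    map_smul' := by intro c x; simp [smul_sub] }

theorem act_add (P : Fin 3 → ℍ[ℝ]) (x y : Oct) : act 0 P (x + y) = act 0 P x + act 0 P y := by
  refine Prod.ext ?_ ?_
  · simp only [act, Prod.fst_add, Prod.snd_add, zero_mul, mul_zero, sub_zero, add_mul,
      Quaternion.re_add, add_smul, Finset.sum_add_distrib, Prod.mk_add_mk, zero_sub]
    abel
  · simp only [act, Prod.fst_add, Prod.snd_add, mul_zero, sub_zero, Prod.mk_add_mk,
      Quaternion.imI_add, Quaternion.imJ_add, Quaternion.imK_add, add_smul]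
    abel

theorem act_smul (P : Fin 3 → ℍ[ℝ]) (c : ℝ) (x : Oct) : act 0 P (c • x) = c • act 0 P x := by
  refine Prod.ext ?_ ?_
  · simp only [act, Prod.smul_fst, Prod.smul_snd, zero_mul, mul_zero, sub_zero, zero_sub,
      smul_mul_assoc, Quaternion.re_smul, smul_neg, Finset.smul_sum, smul_smul, smul_eq_mul]
  · simp only [act, Prod.smul_fst, Prod.smul_snd, mul_zero, sub_zero, smul_add,
      Quaternion.imI_smul, Quaternion.imJ_smul, Quaternion.imK_smul, smul_smul, smul_eq_mul]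

/-- the endomorphism `act 0 P` -/
def pel (P : Fin 3 → ℍ[ℝ]) : End := LinearMap.toContinuousLinearMap
  { toFun := fun x : Oct => act 0 P x
    map_add' := act_add P
    map_smul' := fun c x => act_smul P c x }

theorem hel_apply (q : ℍ[ℝ]) (x : Oct) : hel q x = (0, q * x.2) := rfl
theorem kel_apply (q : ℍ[ℝ]) (x : Oct) : kel q x = (q * x.1 - x.1 * q, -(x.2 * q)) := rfl
theorem pel_apply (P : Fin 3 → ℍ[ℝ]) (x : Oct) : pel P x = act 0 P x := rfl

/-! ### coordinates -/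

theorem e0_re : (e 0).re = 0 := rfl
theorem e0_imI : (e 0).imI = 1 := rfl
theorem e0_imJ : (e 0).imJ = 0 := rfl
theorem e0_imK : (e 0).imK = 0 := rfl
theorem e1_re : (e 1).re = 0 := rfl
theorem e1_imI : (e 1).imI = 0 := rfl
theorem e1_imJ : (e 1).imJ = 1 := rfl
theorem e1_imK : (e 1).imK = 0 := rfl
theorem e2_re : (e 2).re = 0 := rfl
theorem e2_imI : (e 2).imI = 0 := rfl
theorem e2_imJ : (e 2).imJ = 0 := rfl
theorem e2_imK : (e 2).imK = 1 := rfl

/-- components of `pel P x` -/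
theorem pel_1re (P : Fin 3 → ℍ[ℝ]) (x : Oct) : (pel P x).1.re = 0 := by
  simp [pel_apply, act, Fin.sum_univ_three, e0_re, e1_re, e2_re]
theorem pel_1I (P : Fin 3 → ℍ[ℝ]) (x : Oct) : (pel P x).1.imI =
    -(x.2.re * (P 0).re + x.2.imI * (P 0).imI + x.2.imJ * (P 0).imJ + x.2.imK * (P 0).imK) := by
  simp [pel_apply, act, Fin.sum_univ_three, e0_imI, e1_imI, e2_imI, Quaternion.re_mul]
theorem pel_1J (P : Fin 3 → ℍ[ℝ]) (x : Oct) : (pel P x).1.imJ =
    -(x.2.re * (P 1).re + x.2.imI * (P 1).imI + x.2.imJ * (P 1).imJ + x.2.imK * (P 1).imK) := by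
  simp [pel_apply, act, Fin.sum_univ_three, e0_imJ, e1_imJ, e2_imJ, Quaternion.re_mul]
theorem pel_1K (P : Fin 3 → ℍ[ℝ]) (x : Oct) : (pel P x).1.imK =
    -(x.2.re * (P 2).re + x.2.imI * (P 2).imI + x.2.imJ * (P 2).imJ + x.2.imK * (P 2).imK) := by
  simp [pel_apply, act, Fin.sum_univ_three, e0_imK, e1_imK, e2_imK, Quaternion.re_mul]
theorem pel_2 (P : Fin 3 → ℍ[ℝ]) (x : Oct) : (pel P x).2 =
    x.1.imI • P 0 + x.1.imJ • P 1 + x.1.imK • P 2 := by
  simp [pel_apply, act]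

theorem End_ext {X Y : End} (h1 : ∀ x, (X x).1.re = (Y x).1.re)
    (h2 : ∀ x, (X x).1.imI = (Y x).1.imI) (h3 : ∀ x, (X x).1.imJ = (Y x).1.imJ)
    (h4 : ∀ x, (X x).1.imK = (Y x).1.imK) (h5 : ∀ x, (X x).2 = (Y x).2) : X = Y :=
  ContinuousLinearMap.ext fun x =>
    Prod.ext (Quaternion.ext _ _ (h1 x) (h2 x) (h3 x) (h4 x)) (h5 x)

/-! ### linearity -/

theorem hel_add (p p' : ℍ[ℝ]) : hel (p + p') = hel p + hel p' := by
  refine ContinuousLinearMap.ext fun x => ?_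
  simp [hel_apply, add_mul]

theorem hel_smul (c : ℝ) (p : ℍ[ℝ]) : hel (c • p) = c • hel p := by
  refine ContinuousLinearMap.ext fun x => ?_
  simp [hel_apply]

theorem kel_add (p p' : ℍ[ℝ]) : kel (p + p') = kel p + kel p' := by
  refine ContinuousLinearMap.ext fun x => ?_
  simp only [kel_apply, _root_.add_apply, add_mul, mul_add, Prod.mk_add_mk]
  refine Prod.ext ?_ ?_ <;> simp only <;> abel

theorem kel_smul (c : ℝ) (p : ℍ[ℝ]) : kel (c • p) = c • kel p := by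
  refine ContinuousLinearMap.ext fun x => ?_
  simp [kel_apply, smul_sub]

theorem pel_add (P P' : Fin 3 → ℍ[ℝ]) : pel (P + P') = pel P + pel P' := by
  apply End_ext <;> intro x <;>
    simp only [_root_.add_apply, Prod.fst_add, Prod.snd_add, Quaternion.re_add,
      Quaternion.imI_add, Quaternion.imJ_add, Quaternion.imK_add, pel_1re, pel_1I, pel_1J,
      pel_1K, pel_2, Pi.add_apply]
  · ring
  · ring
  · ring
  · ring
  · simp only [smul_add]; abel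

theorem pel_smul (c : ℝ) (P : Fin 3 → ℍ[ℝ]) : pel (c • P) = c • pel P := by
  apply End_ext <;> intro x <;>
    simp only [_root_.smul_apply, Prod.smul_fst, Prod.smul_snd, Quaternion.re_smul,
      Quaternion.imI_smul, Quaternion.imJ_smul, Quaternion.imK_smul, pel_1re, pel_1I, pel_1J,
      pel_1K, pel_2, Pi.smul_apply, smul_eq_mul]
  · ring
  · ring
  · ring
  · ring
  · simp only [smul_add, smul_comm c]

/-- `hel` as a linear map -/
def helL : ℍ[ℝ] →ₗ[ℝ] End := ⟨⟨hel, hel_add⟩, hel_smul⟩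
/-- `kel` as a linear map -/
def kelL : ℍ[ℝ] →ₗ[ℝ] End := ⟨⟨kel, kel_add⟩, kel_smul⟩
/-- `pel` as a linear map -/
def pelL : (Fin 3 → ℍ[ℝ]) →ₗ[ℝ] End := ⟨⟨pel, pel_add⟩, pel_smul⟩

/-- imaginary quaternions -/
def Im : Submodule ℝ ℍ[ℝ] where
  carrier := {q | q.re = 0}
  zero_mem' := rfl
  add_mem' := by intro a b ha hb; simp only [Set.mem_ofPred_eq] at *; simp [ha, hb]
  smul_mem' := by intro c a ha; simp only [Set.mem_ofPred_eq] at *; simp [ha]

theorem mem_Im {q : ℍ[ℝ]} : q ∈ Im ↔ q.re = 0 := Iff.rfl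

/-- the constraint -/
def Cn : Submodule ℝ (Fin 3 → ℍ[ℝ]) where
  carrier := {P | ∑ s, P s * e s = 0}
  zero_mem' := by simp
  add_mem' := by
    intro a b ha hb
    simp only [Set.mem_ofPred_eq] at *
    simp [add_mul, Finset.sum_add_distrib, ha, hb]
  smul_mem' := by
    intro c a ha
    simp only [Set.mem_ofPred_eq] at *
    simp only [Pi.smul_apply, smul_mul_assoc, ← Finset.smul_sum, ha, smul_zero]

theorem mem_Cn {P : Fin 3 → ℍ[ℝ]} : P ∈ Cn ↔ ∑ s, P s * e s = 0 := Iff.rfl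

/-- `{hel q : q imaginary}` -/
def sh : Submodule ℝ End := Im.map helL
/-- `{kel q : q imaginary}` -/
def sk : Submodule ℝ End := Im.map kelL
/-- `{pel P : ∑ P s * e s = 0}` -/
def sp : Submodule ℝ End := Cn.map pelL
theorem mem_sh (X : End) : X ∈ sh ↔ ∃ q : ℍ[ℝ], q.re = 0 ∧ X = hel q := by
  simp only [sh, Submodule.mem_map, mem_Im]
  exact ⟨fun ⟨q, h1, h2⟩ => ⟨q, h1, h2.symm⟩, fun ⟨q, h1, h2⟩ => ⟨q, h1, h2.symm⟩⟩
theorem mem_sk (X : End) : X ∈ sk ↔ ∃ q : ℍ[ℝ], q.re = 0 ∧ X = kel q := by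
  simp only [sk, Submodule.mem_map, mem_Im]
  exact ⟨fun ⟨q, h1, h2⟩ => ⟨q, h1, h2.symm⟩, fun ⟨q, h1, h2⟩ => ⟨q, h1, h2.symm⟩⟩
theorem mem_sp (X : End) : X ∈ sp ↔ ∃ P : Fin 3 → ℍ[ℝ], ∑ s, P s * e s = 0 ∧ X = pel P := by
  simp only [sp, Submodule.mem_map, mem_Cn]
  exact ⟨fun ⟨q, h1, h2⟩ => ⟨q, h1, h2.symm⟩, fun ⟨q, h1, h2⟩ => ⟨q, h1, h2.symm⟩⟩

theorem act_eq (q : ℍ[ℝ]) (P : Fin 3 → ℍ[ℝ]) (x : Oct) : act q P x = kel q x + pel P x := by
  refine Prod.ext ?_ ?_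
  · simp only [act, kel_apply, pel_apply, Prod.fst_add, zero_mul, mul_zero]
    abel
  · simp only [act, kel_apply, pel_apply, Prod.snd_add, mul_zero]
    abel

theorem m_eq : m = sk ⊔ sp := by
  ext X
  rw [Submodule.mem_sup]
  constructor
  · rintro ⟨q, P, hq, hP, hX⟩
    refine ⟨kel q, (mem_sk _).2 ⟨q, hq, rfl⟩, pel P, (mem_sp _).2 ⟨P, hP, rfl⟩, ?_⟩
    refine ContinuousLinearMap.ext fun x => ?_
    rw [hX, act_eq, _root_.add_apply]
  · rintro ⟨Y, hY, Z, hZ, rfl⟩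
    obtain ⟨q, hq, rfl⟩ := (mem_sk _).1 hY
    obtain ⟨P, hP, rfl⟩ := (mem_sp _).1 hZ
    exact ⟨q, P, hq, hP, fun x => by rw [act_eq, _root_.add_apply]⟩

/-! ### the trace form -/

/-- coordinates of quaternions -/
def quatEquiv : ℍ[ℝ] ≃ₗ[ℝ] (Fin 4 → ℝ) where
  toFun q := ![q.re, q.imI, q.imJ, q.imK]
  map_add' x y := by
    ext i
    fin_cases i <;> simp
  map_smul' c x := by
    ext i
    fin_cases i <;> simp
  invFun v := ⟨v 0, v 1, v 2, v 3⟩
  left_inv q := rfl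
  right_inv v := by
    ext i
    fin_cases i <;> rfl

/-- the standard basis -/
def bas : Module.Basis (Fin 4) ℝ ℍ[ℝ] := Module.Basis.ofEquivFun quatEquiv

theorem bas_repr (q : ℍ[ℝ]) (i : Fin 4) : bas.repr q i = (![q.re, q.imI, q.imJ, q.imK] : Fin 4 → ℝ) i :=
  rfl

theorem bas_eq (i : Fin 4) : bas i = (![1, e 0, e 1, e 2] : Fin 4 → ℍ[ℝ]) i := by
  rw [Module.Basis.apply_eq_iff]
  ext j
  rw [bas_repr]
  fin_cases i <;> fin_cases j <;> simp [e]

theorem trace_eq (X : Oct →ₗ[ℝ] Oct) : LinearMap.trace ℝ Oct X =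
    (X (1, 0)).1.re + (X (e 0, 0)).1.imI + (X (e 1, 0)).1.imJ + (X (e 2, 0)).1.imK
      + (X (0, 1)).2.re + (X (0, e 0)).2.imI + (X (0, e 1)).2.imJ + (X (0, e 2)).2.imK := by
  rw [LinearMap.trace_eq_matrix_trace ℝ (bas.prod bas) X]
  simp only [Matrix.trace, Matrix.diag_apply, Fintype.sum_sum_type, Fin.sum_univ_four,
    LinearMap.toMatrix_apply]
  simp [Module.Basis.prod_apply, bas_repr, bas_eq]
  ring

/-- `- ½ tr(XY)` -/
def QQ : End →ₗ[ℝ] End →ₗ[ℝ] ℝ :=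
  LinearMap.mk₂ ℝ (fun X Y : End =>
    -(1 / 2) * LinearMap.trace ℝ Oct ((X * Y : End) : Oct →ₗ[ℝ] Oct))
    (by intro X Y Z; simp [add_mul]; ring)
    (by intro c X Y; simp; ring)
    (by intro X Y Z; simp [mul_add])
    (by intro c X Y; simp; ring)

theorem QQ_apply (X Y : End) : QQ X Y =
    -(1 / 2) * LinearMap.trace ℝ Oct ((X * Y : End) : Oct →ₗ[ℝ] Oct) := rfl

theorem QQ_eq (X Y : End) : QQ X Y = -(1 / 2) *
    ((X (Y (1, 0))).1.re + (X (Y (e 0, 0))).1.imI + (X (Y (e 1, 0))).1.imJ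
      + (X (Y (e 2, 0))).1.imK + (X (Y (0, 1))).2.re + (X (Y (0, e 0))).2.imI
      + (X (Y (0, e 1))).2.imJ + (X (Y (0, e 2))).2.imK) := by
  rw [QQ_apply, trace_eq]
  rfl

attribute [local simp] e0_re e0_imI e0_imJ e0_imK e1_re e1_imI e1_imJ e1_imK e2_re e2_imI e2_imJ
  e2_imK Quaternion.re_mul Quaternion.imI_mul Quaternion.imJ_mul Quaternion.imK_mul

theorem QQ_hel (q q' : ℍ[ℝ]) (hq : q.re = 0) (hq' : q'.re = 0) :
    QQ (hel q) (hel q') = 2 * (q * star q').re := by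
  rw [QQ_eq]
  simp [hel_apply, hq, hq']
  ring

theorem QQ_kel (q q' : ℍ[ℝ]) (hq : q.re = 0) (hq' : q'.re = 0) :
    QQ (kel q) (kel q') = 6 * (q * star q').re := by
  rw [QQ_eq]
  simp [kel_apply, hq, hq']
  ring

theorem QQ_pel (P P' : Fin 3 → ℍ[ℝ]) :
    QQ (pel P) (pel P') = ∑ s, (P s * star (P' s)).re := by
  rw [QQ_eq]
  simp [pel_1re, pel_1I, pel_1J, pel_1K, pel_2, Fin.sum_univ_three]
  ring

theorem QQ_hel_kel (q q' : ℍ[ℝ]) (hq : q.re = 0) (hq' : q'.re = 0) :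
    QQ (hel q) (kel q') = 0 := by
  rw [QQ_eq]
  simp [hel_apply, kel_apply, hq, hq']
  ring

theorem QQ_hel_pel (q : ℍ[ℝ]) (P : Fin 3 → ℍ[ℝ]) : QQ (hel q) (pel P) = 0 := by
  rw [QQ_eq]
  simp [hel_apply, pel_2]

theorem QQ_kel_pel (q : ℍ[ℝ]) (P : Fin 3 → ℍ[ℝ]) : QQ (kel q) (pel P) = 0 := by
  rw [QQ_eq]
  simp [kel_apply, pel_1re, pel_1I, pel_1J, pel_1K, pel_2]

/-! ### brackets -/

theorem lie_apply (X Y : End) (x : Oct) : ⁅X, Y⁆ x = X (Y x) - Y (X x) := by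
  rw [Ring.lie_def]
  rfl

theorem lie_hel_hel (p p' : ℍ[ℝ]) : ⁅hel p, hel p'⁆ = hel (p * p' - p' * p) := by
  refine ContinuousLinearMap.ext fun x => ?_
  rw [lie_apply]
  simp only [hel_apply, sub_mul, mul_assoc, Prod.mk_sub_mk, sub_zero]

theorem lie_kel_kel (p p' : ℍ[ℝ]) : ⁅kel p, kel p'⁆ = kel (p * p' - p' * p) := by
  refine ContinuousLinearMap.ext fun x => ?_
  rw [lie_apply]
  simp only [kel_apply, Prod.mk_sub_mk]
  refine Prod.ext ?_ ?_
  · simp only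
    noncomm_ring
  · simp only
    noncomm_ring

theorem lie_hel_kel (p q : ℍ[ℝ]) : ⁅hel p, kel q⁆ = 0 := by
  refine ContinuousLinearMap.ext fun x => ?_
  rw [lie_apply]
  simp only [kel_apply, hel_apply, Prod.mk_sub_mk]
  refine Prod.ext ?_ ?_
  · simp
  · simp [mul_assoc]

theorem lie_hel_pel (p : ℍ[ℝ]) (hp : p.re = 0) (P : Fin 3 → ℍ[ℝ]) :
    ⁅hel p, pel P⁆ = pel (fun s => p * P s) := by
  apply End_ext <;> intro x <;> rw [lie_apply]
  · simp [hel_apply, pel_1re]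
  · simp [hel_apply, pel_1I, hp]
    ring
  · simp [hel_apply, pel_1J, hp]
    ring
  · simp [hel_apply, pel_1K, hp]
    ring
  · simp [hel_apply, pel_2, mul_add]

/-- the action of `kel q` on `sp` -/
def kact (q : ℍ[ℝ]) (P : Fin 3 → ℍ[ℝ]) : Fin 3 → ℍ[ℝ] := fun s =>
  -(P s * q) - ((q * e s - e s * q).imI • P 0 + (q * e s - e s * q).imJ • P 1
    + (q * e s - e s * q).imK • P 2)

theorem lie_kel_pel (q : ℍ[ℝ]) (hq : q.re = 0) (P : Fin 3 → ℍ[ℝ]) :
    ⁅kel q, pel P⁆ = pel (kact q P) := by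
  apply End_ext <;> intro x <;> rw [lie_apply]
  · simp [kel_apply, pel_1re, pel_1I, pel_1J, pel_1K]
    ring
  · simp [kel_apply, pel_1re, pel_1I, pel_1J, pel_1K, hq, kact]
    ring
  · simp [kel_apply, pel_1re, pel_1I, pel_1J, pel_1K, hq, kact]
    ring
  · simp [kel_apply, pel_1re, pel_1I, pel_1J, pel_1K, hq, kact]
    ring
  · apply Quaternion.ext <;> simp [kel_apply, pel_2, hq, kact] <;> ring

theorem cn_iff {P : Fin 3 → ℍ[ℝ]} : ∑ s, P s * e s = 0 ↔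
    (P 2).re = (P 0).imJ - (P 1).imI ∧ (P 2).imI = (P 0).imK + (P 1).re ∧
      (P 2).imJ = (P 1).imK - (P 0).re ∧ (P 2).imK = -(P 0).imI - (P 1).imJ := by
  rw [Quaternion.ext_iff, Fin.sum_univ_three]
  simp
  constructor
  · rintro ⟨h1, h2, h3, h4⟩
    refine ⟨?_, ?_, ?_, ?_⟩ <;> linarith
  · rintro ⟨h1, h2, h3, h4⟩
    refine ⟨?_, ?_, ?_, ?_⟩ <;> linarith

theorem cn_mul (p : ℍ[ℝ]) {P : Fin 3 → ℍ[ℝ]} (hP : ∑ s, P s * e s = 0) :
    ∑ s, p * P s * e s = 0 := by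
  simp only [mul_assoc, ← Finset.mul_sum, hP, mul_zero]

theorem cn_kact {q : ℍ[ℝ]} (hq : q.re = 0) {P : Fin 3 → ℍ[ℝ]} (hP : ∑ s, P s * e s = 0) :
    ∑ s, kact q P s * e s = 0 := by
  obtain ⟨h1, h2, h3, h4⟩ := cn_iff.1 hP
  rw [cn_iff]
  simp only [kact]
  refine ⟨?_, ?_, ?_, ?_⟩ <;> simp [hq, h1, h2, h3, h4] <;> ring

/-- the Gram matrix of `P` and `P'` -/
def mm (P P' : Fin 3 → ℍ[ℝ]) (s t : Fin 3) : ℝ := (P s * star (P' t)).re

/-- the `sk` component of `⁅pel P, pel P'⁆` -/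
def brk (P P' : Fin 3 → ℍ[ℝ]) : ℍ[ℝ] :=
  ⟨0, (mm P P' 1 2 - mm P P' 2 1) / 2, (mm P P' 2 0 - mm P P' 0 2) / 2,
    (mm P P' 0 1 - mm P P' 1 0) / 2⟩

/-- the `sh` component of `⁅pel P, pel P'⁆` -/
def brh (P P' : Fin 3 → ℍ[ℝ]) : ℍ[ℝ] :=
  brk P P' + ∑ s, ((P s).re • P' s - (P' s).re • P s)

theorem brk_re (P P' : Fin 3 → ℍ[ℝ]) : (brk P P').re = 0 := rfl
theorem brk_imI (P P' : Fin 3 → ℍ[ℝ]) :
    (brk P P').imI = (mm P P' 1 2 - mm P P' 2 1) / 2 := rfl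
theorem brk_imJ (P P' : Fin 3 → ℍ[ℝ]) :
    (brk P P').imJ = (mm P P' 2 0 - mm P P' 0 2) / 2 := rfl
theorem brk_imK (P P' : Fin 3 → ℍ[ℝ]) :
    (brk P P').imK = (mm P P' 0 1 - mm P P' 1 0) / 2 := rfl

theorem brh_re (P P' : Fin 3 → ℍ[ℝ]) : (brh P P').re = 0 := by
  simp [brh, brk_re, Fin.sum_univ_three]
  ring

theorem lie_pel_pel {P P' : Fin 3 → ℍ[ℝ]} (hP : ∑ s, P s * e s = 0)
    (hP' : ∑ s, P' s * e s = 0) : ⁅pel P, pel P'⁆ = hel (brh P P') + kel (brk P P') := by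
  obtain ⟨h1, h2, h3, h4⟩ := cn_iff.1 hP
  obtain ⟨k1, k2, k3, k4⟩ := cn_iff.1 hP'
  apply End_ext <;> intro x <;> rw [lie_apply, _root_.add_apply]
  · simp [hel_apply, kel_apply, pel_1re, brk_re]
    ring
  · simp [hel_apply, kel_apply, pel_1I, pel_2, brk_re, brk_imI, brk_imJ, brk_imK, mm]
    ring
  · simp [hel_apply, kel_apply, pel_1J, pel_2, brk_re, brk_imI, brk_imJ, brk_imK, mm]
    ring
  · simp [hel_apply, kel_apply, pel_1K, pel_2, brk_re, brk_imI, brk_imJ, brk_imK, mm]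
    ring
  · apply Quaternion.ext <;>
      simp [hel_apply, kel_apply, pel_1I, pel_1J, pel_1K, pel_2, brh, brk_re, brk_imI, brk_imJ,
        brk_imK, mm, Fin.sum_univ_three, h1, h2, h3, h4, k1, k2, k3, k4] <;> ring

/-! ### projections -/

/-- imaginary part -/
def imL : ℍ[ℝ] →ₗ[ℝ] ℍ[ℝ] where
  toFun q := ⟨0, q.imI, q.imJ, q.imK⟩
  map_add' a b := by
    apply Quaternion.ext
    · exact (add_zero (0 : ℝ)).symm
    · rfl
    · rfl
    · rfl
  map_smul' c a := by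
    apply Quaternion.ext
    · exact (mul_zero c).symm
    · rfl
    · rfl
    · rfl

theorem imL_re (q : ℍ[ℝ]) : (imL q).re = 0 := rfl

theorem imL_of {q : ℍ[ℝ]} (hq : q.re = 0) : imL q = q := by
  apply Quaternion.ext
  · rw [hq]; rfl
  · rfl
  · rfl
  · rfl

/-- the `sk` coordinate -/
def qc : End →ₗ[ℝ] ℍ[ℝ] where
  toFun X := imL ((-(1 / 4) : ℝ) • ∑ s, (X (e s, 0)).1 * e s)
  map_add' X Y := by
    rw [← map_add, ← smul_add, ← Finset.sum_add_distrib]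
    simp only [_root_.add_apply, Prod.fst_add, add_mul]
  map_smul' c X := by
    rw [RingHom.id_apply, ← map_smul, smul_comm c, Finset.smul_sum (r := c)]
    simp only [_root_.smul_apply, Prod.smul_fst, smul_mul_assoc]

theorem qc_apply (X : End) : qc X = imL ((-(1 / 4) : ℝ) • ∑ s, (X (e s, 0)).1 * e s) := rfl

/-- the `sh` coordinate -/
def pc : End →ₗ[ℝ] ℍ[ℝ] where
  toFun X := imL (X (0, 1)).2 + qc X
  map_add' X Y := by
    rw [map_add, _root_.add_apply, Prod.snd_add, map_add]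
    abel
  map_smul' c X := by
    rw [RingHom.id_apply, map_smul, _root_.smul_apply, Prod.smul_snd, map_smul, smul_add]

theorem pc_apply (X : End) : pc X = imL (X (0, 1)).2 + qc X := rfl

/-- the `sp` coordinate -/
def Pc : End →ₗ[ℝ] (Fin 3 → ℍ[ℝ]) where
  toFun X := fun s => (X (e s, 0)).2 + (1 / 3 : ℝ) • ((∑ t, (X (e t, 0)).2 * e t) * e s)
  map_add' X Y := by
    funext s
    simp only [_root_.add_apply, Prod.snd_add, add_mul, Finset.sum_add_distrib, smul_add,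
      Pi.add_apply]
    abel
  map_smul' c X := by
    funext s
    simp only [_root_.smul_apply, Prod.smul_snd, smul_mul_assoc, ← Finset.smul_sum,
      Pi.smul_apply, RingHom.id_apply, smul_add, smul_comm c]

theorem Pc_apply (X : End) (s : Fin 3) : Pc X s =
    (X (e s, 0)).2 + (1 / 3 : ℝ) • ((∑ t, (X (e t, 0)).2 * e t) * e s) := rfl

theorem ee_sum : ∑ s, e s * e s = (-3 : ℝ) • (1 : ℍ[ℝ]) := by
  rw [Fin.sum_univ_three]
  apply Quaternion.ext <;> simp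
  norm_num

theorem Pc_cn (X : End) : ∑ s, Pc X s * e s = 0 := by
  simp only [Pc_apply, add_mul, Finset.sum_add_distrib, smul_mul_assoc, mul_assoc,
    ← Finset.smul_sum, ← Finset.mul_sum, ee_sum]
  rw [mul_smul_comm, mul_one, smul_smul]
  norm_num

theorem qc_hel (p : ℍ[ℝ]) : qc (hel p) = 0 := by
  rw [qc_apply]
  simp [hel_apply]

theorem qc_kel {q : ℍ[ℝ]} (hq : q.re = 0) : qc (kel q) = q := by
  rw [qc_apply]
  conv_rhs => rw [← imL_of hq]
  congr 1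
  rw [Fin.sum_univ_three]
  apply Quaternion.ext <;> simp [kel_apply, hq] <;> ring

theorem qc_pel (P : Fin 3 → ℍ[ℝ]) : qc (pel P) = 0 := by
  rw [qc_apply]
  have : ∀ s, (pel P (e s, 0)).1 = 0 := by
    intro s
    apply Quaternion.ext <;> simp [pel_1re, pel_1I, pel_1J, pel_1K]
  simp [this]

theorem pc_hel {p : ℍ[ℝ]} (hp : p.re = 0) : pc (hel p) = p := by
  rw [pc_apply, qc_hel, hel_apply]
  simp [imL_of hp]

theorem pc_kel {q : ℍ[ℝ]} (hq : q.re = 0) : pc (kel q) = 0 := by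
  rw [pc_apply, qc_kel hq, kel_apply]
  simp [imL_of hq]

theorem pc_pel (P : Fin 3 → ℍ[ℝ]) : pc (pel P) = 0 := by
  rw [pc_apply, qc_pel, pel_2]
  simp

theorem Pc_hel (p : ℍ[ℝ]) : Pc (hel p) = 0 := by
  funext s
  rw [Pc_apply]
  simp [hel_apply]

theorem Pc_kel (q : ℍ[ℝ]) : Pc (kel q) = 0 := by
  funext s
  rw [Pc_apply]
  simp [kel_apply]

theorem Pc_pel {P : Fin 3 → ℍ[ℝ]} (hP : ∑ s, P s * e s = 0) : Pc (pel P) = P := by
  have h : ∀ s, (pel P (e s, 0)).2 = P s := by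
    intro s
    rw [pel_2]
    fin_cases s <;> simp
  funext s
  rw [Pc_apply]
  simp only [h, hP]
  simp

/-- projection to `sh` -/
def PH : End →L[ℝ] End := LinearMap.toContinuousLinearMap (helL ∘ₗ pc)
/-- projection to `sk` -/
def PK : End →L[ℝ] End := LinearMap.toContinuousLinearMap (kelL ∘ₗ qc)
/-- projection to `sp` -/
def PP : End →L[ℝ] End := LinearMap.toContinuousLinearMap (pelL ∘ₗ Pc)

theorem PH_apply (X : End) : PH X = hel (pc X) := rfl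
theorem PK_apply (X : End) : PK X = kel (qc X) := rfl
theorem PP_apply (X : End) : PP X = pel (Pc X) := rfl

theorem PKP_mem (X : End) : (PK + PP) X ∈ m := by
  rw [m_eq, _root_.add_apply, PK_apply, PP_apply]
  exact Submodule.add_mem_sup ((mem_sk _).2 ⟨_, imL_re _, rfl⟩)
    ((mem_sp _).2 ⟨_, Pc_cn X, rfl⟩)

theorem sum_star_nonneg (q : ℍ[ℝ]) : 0 ≤ (q * star q).re := by
  rw [← Quaternion.normSq_def]
  exact Quaternion.normSq_nonneg

theorem symData : SymData (𝔸 := End) sh sk sp QQ PH PK PP where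
  hh := by
    intro X hX Y hY
    obtain ⟨p, hp, rfl⟩ := (mem_sh _).1 hX
    obtain ⟨q, hq, rfl⟩ := (mem_sh _).1 hY
    exact (mem_sh _).2 ⟨_, by simp [hp, hq]; ring, lie_hel_hel p q⟩
  kk := by
    intro X hX Y hY
    obtain ⟨p, hp, rfl⟩ := (mem_sk _).1 hX
    obtain ⟨q, hq, rfl⟩ := (mem_sk _).1 hY
    exact (mem_sk _).2 ⟨_, by simp [hp, hq]; ring, lie_kel_kel p q⟩
  hk := by
    intro X hX Y hY
    obtain ⟨p, hp, rfl⟩ := (mem_sh _).1 hX
    obtain ⟨q, hq, rfl⟩ := (mem_sk _).1 hY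
    exact lie_hel_kel p q
  hp := by
    intro X hX Y hY
    obtain ⟨p, hp, rfl⟩ := (mem_sh _).1 hX
    obtain ⟨P, hP, rfl⟩ := (mem_sp _).1 hY
    exact (mem_sp _).2 ⟨_, cn_mul p hP, lie_hel_pel p hp P⟩
  kp := by
    intro X hX Y hY
    obtain ⟨p, hp, rfl⟩ := (mem_sk _).1 hX
    obtain ⟨P, hP, rfl⟩ := (mem_sp _).1 hY
    exact (mem_sp _).2 ⟨_, cn_kact hp hP, lie_kel_pel p hp P⟩
  pp := by
    intro X hX Y hY
    obtain ⟨P, hP, rfl⟩ := (mem_sp _).1 hX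
    obtain ⟨P', hP', rfl⟩ := (mem_sp _).1 hY
    rw [lie_pel_pel hP hP']
    exact Submodule.add_mem_sup ((mem_sh _).2 ⟨_, brh_re P P', rfl⟩)
      ((mem_sk _).2 ⟨_, brk_re P P', rfl⟩)
  Qsymm := by
    intro X Y
    rw [QQ_apply, QQ_apply]
    congr 1
    exact LinearMap.trace_mul_comm ℝ (X : Oct →ₗ[ℝ] Oct) (Y : Oct →ₗ[ℝ] Oct)
  Qinv := by
    intro X Y Z
    rw [QQ_apply, QQ_apply]
    congr 1
    rw [Ring.lie_def, Ring.lie_def, sub_mul, mul_sub]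
    have h := LinearMap.trace_mul_comm ℝ (Y : Oct →ₗ[ℝ] Oct) ((X * Z : End) : Oct →ₗ[ℝ] Oct)
    have h2 : LinearMap.trace ℝ Oct ((Y * X * Z : End) : Oct →ₗ[ℝ] Oct) =
        LinearMap.trace ℝ Oct ((X * (Z * Y) : End) : Oct →ₗ[ℝ] Oct) := by
      rw [mul_assoc, ← mul_assoc X Z Y]
      exact h
    have h3 : LinearMap.trace ℝ Oct ((X * Y * Z - Y * X * Z : End) : Oct →ₗ[ℝ] Oct) =
        LinearMap.trace ℝ Oct ((X * Y * Z : End) : Oct →ₗ[ℝ] Oct) -
          LinearMap.trace ℝ Oct ((Y * X * Z : End) : Oct →ₗ[ℝ] Oct) :=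
      map_sub (LinearMap.trace ℝ Oct) _ _
    have h4 : LinearMap.trace ℝ Oct ((X * (Y * Z) - X * (Z * Y) : End) : Oct →ₗ[ℝ] Oct) =
        LinearMap.trace ℝ Oct ((X * (Y * Z) : End) : Oct →ₗ[ℝ] Oct) -
          LinearMap.trace ℝ Oct ((X * (Z * Y) : End) : Oct →ₗ[ℝ] Oct) :=
      map_sub (LinearMap.trace ℝ Oct) _ _
    rw [h3, h4, h2, mul_assoc]
  Qpos := by
    intro X hX hX0
    obtain ⟨Y, hY, Z, hZ, rfl⟩ := Submodule.mem_sup.1 hX
    obtain ⟨A, hA, B, hB, rfl⟩ := Submodule.mem_sup.1 hY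
    obtain ⟨p, hp, rfl⟩ := (mem_sh _).1 hA
    obtain ⟨q, hq, rfl⟩ := (mem_sk _).1 hB
    obtain ⟨P, hP, rfl⟩ := (mem_sp _).1 hZ
    have hsymm : ∀ X Y : End, QQ X Y = QQ Y X := by
      intro X Y
      rw [QQ_apply, QQ_apply]
      congr 1
      exact LinearMap.trace_mul_comm ℝ (X : Oct →ₗ[ℝ] Oct) (Y : Oct →ₗ[ℝ] Oct)
    have h1 : QQ (hel p + kel q + pel P) (hel p + kel q + pel P) =
        2 * (p * star p).re + 6 * (q * star q).re + ∑ s, (P s * star (P s)).re := by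
      simp only [map_add, LinearMap.add_apply, QQ_hel p p hp hp, QQ_kel q q hq hq, QQ_pel,
        QQ_hel_kel p q hp hq, QQ_hel_pel, QQ_kel_pel, hsymm (kel q) (hel p),
        hsymm (pel P) (hel p), hsymm (pel P) (kel q)]
      ring
    rw [h1]
    by_contra hcon
    have a1 := sum_star_nonneg p
    have a2 := sum_star_nonneg q
    have a3 : ∀ s, 0 ≤ (P s * star (P s)).re := fun s => sum_star_nonneg (P s)
    have a4 : 0 ≤ ∑ s, (P s * star (P s)).re := Finset.sum_nonneg fun s _ => a3 s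
    have b1 : (p * star p).re = 0 := by linarith
    have b2 : (q * star q).re = 0 := by linarith
    have b3 : ∑ s, (P s * star (P s)).re = 0 := by linarith
    have b4 := (Finset.sum_eq_zero_iff_of_nonneg fun s _ => a3 s).1 b3
    rw [← Quaternion.normSq_def, Quaternion.normSq_eq_zero] at b1 b2
    have b5 : P = 0 := by
      funext s
      have := b4 s (Finset.mem_univ s)
      rwa [← Quaternion.normSq_def, Quaternion.normSq_eq_zero] at this
    apply hX0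
    rw [b1, b2, b5, show hel 0 = 0 from helL.map_zero, show kel 0 = 0 from kelL.map_zero,
      show pel 0 = 0 from pelL.map_zero]
    simp
  Qhk := by
    intro X hX Y hY
    obtain ⟨p, hp, rfl⟩ := (mem_sh _).1 hX
    obtain ⟨q, hq, rfl⟩ := (mem_sk _).1 hY
    exact QQ_hel_kel p q hp hq
  Qhp := by
    intro X hX Y hY
    obtain ⟨p, hp, rfl⟩ := (mem_sh _).1 hX
    obtain ⟨P, hP, rfl⟩ := (mem_sp _).1 hY
    exact QQ_hel_pel p P
  Qkp := by
    intro X hX Y hY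
    obtain ⟨p, hp, rfl⟩ := (mem_sk _).1 hX
    obtain ⟨P, hP, rfl⟩ := (mem_sp _).1 hY
    exact QQ_kel_pel p P
  Ph_h := by
    intro X hX
    obtain ⟨p, hp, rfl⟩ := (mem_sh _).1 hX
    rw [PH_apply, pc_hel hp]
  Ph_k := by
    intro X hX
    obtain ⟨p, hp, rfl⟩ := (mem_sk _).1 hX
    rw [PH_apply, pc_kel hp]
    exact helL.map_zero
  Ph_p := by
    intro X hX
    obtain ⟨P, hP, rfl⟩ := (mem_sp _).1 hX
    rw [PH_apply, pc_pel]
    exact helL.map_zero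
  Pk_h := by
    intro X hX
    obtain ⟨p, hp, rfl⟩ := (mem_sh _).1 hX
    rw [PK_apply, qc_hel]
    exact kelL.map_zero
  Pk_k := by
    intro X hX
    obtain ⟨p, hp, rfl⟩ := (mem_sk _).1 hX
    rw [PK_apply, qc_kel hp]
  Pk_p := by
    intro X hX
    obtain ⟨P, hP, rfl⟩ := (mem_sp _).1 hX
    rw [PK_apply, qc_pel]
    exact kelL.map_zero
  Pp_h := by
    intro X hX
    obtain ⟨p, hp, rfl⟩ := (mem_sh _).1 hX
    rw [PP_apply, Pc_hel]
    exact pelL.map_zero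
  Pp_k := by
    intro X hX
    obtain ⟨p, hp, rfl⟩ := (mem_sk _).1 hX
    rw [PP_apply, Pc_kel]
    exact pelL.map_zero
  Pp_p := by
    intro X hX
    obtain ⟨P, hP, rfl⟩ := (mem_sp _).1 hX
    rw [PP_apply, Pc_pel hP]

theorem exists_sym : ∃ Ph Pk Pp : End →L[ℝ] End, SymData (𝔸 := End) sh sk sp QQ Ph Pk Pp ∧
    ∃ P : End →L[ℝ] m, ∀ X, (P X : End) = Pk X + Pp X :=
  ⟨PH, PK, PP, symData, (PK + PP).codRestrict m PKP_mem, fun _ => rfl⟩

end G2

end Pool.Agent.Helper93.Fin
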